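import Pool.Agent.Run7.h704.PL.REM
import Pool.Agent.Run7.h437.TS.TRS

/-! Piece RAN of project PRL. -/

set_option autoImplicit false
set_option linter.all false

open Polynomial IsDedekindDomain
open scoped Classical

namespace Run7.h704.PL

open Run7.h875.TS (chi cd IsPC GSq irrD dg NRs uT sqf prD sqL sz Tr)
open Run7.h286.PL
open Run7.h550.TS (mem_prD eq_of_dvd prD_mul dg_prD sqf_fin mem_sq card_sq mem_irrD nat_irr_le)

section

variable {k : Type} [Field k] [Finite k]

/-- the number of large primes of type `τ` -/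
noncomputable def bb (τ : k[X] → Prop) (M : ℕ) (D : k[X]) : ℕ :=
  ((prD D).filter fun Q => τ Q ∧ M < Q.natDegree).card

/-- the weight of a prime -/
noncomputable def yy (τ : k[X] → Prop) (M : ℕ) (x : ℝ) (Q : k[X]) : ℝ :=
  if τ Q ∧ M < Q.natDegree then x else 1

theorem prod_yy (τ : k[X] → Prop) (M : ℕ) (x : ℝ) (T : Finset k[X]) :
    ∏ Q ∈ T, yy τ M x Q = x ^ (T.filter fun Q => τ Q ∧ M < Q.natDegree).card := by
  unfold yy
  rw [Finset.prod_ite, Finset.prod_const, Finset.prod_const_one, mul_one]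

/-- the sum over `D` -/
noncomputable def SS (B : k[X]) (τ : k[X] → Prop) (M : ℕ) (x : ℝ) (j : ℕ) : ℝ :=
  ∑ D ∈ sqF B j, x ^ bb τ M D

theorem SS_nonneg (B : k[X]) (τ : k[X] → Prop) (M : ℕ) {x : ℝ} (hx : 0 ≤ x) (j : ℕ) :
    0 ≤ SS B τ M x j := Finset.sum_nonneg fun D _ => pow_nonneg hx _

theorem irr_le {m : ℕ} (hm : 0 < m) : (m : ℝ) * (irrD k m).card ≤ (Nat.card k : ℝ) ^ m :=
  nat_irr_le Run7.h437.TS.trs hm

/-- the removal identity without a type -/
theorem REM'' (B : k[X]) (N : ℕ) (F : k[X] → k[X] → ℝ) (h2 : (2 : k) ≠ 0) (hB : B ≠ 0) :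
    ∑ D ∈ sqF B N, ∑ Q ∈ prD D, F D Q = ∑ m ∈ Finset.Icc 1 N, ∑ D ∈ sqF B (N - m),
      ∑ Q ∈ (irrD k m).filter (fun Q => ¬ Q ∣ D ∧ ¬ Q ∣ B), F (D * Q) Q := by
  have h1 := T_REM k B h2 hB N (fun _ => True) F
  have e1 : ∑ D ∈ sqF B N, ∑ Q ∈ prD D, F D Q =
      ∑ D ∈ sqF B N, ∑ Q ∈ (prD D).filter ((fun _ => True : k[X] → Prop)), F D Q := by
    refine Finset.sum_congr rfl fun D _ => ?_
    rw [Finset.filter_true_of_mem (fun _ _ => trivial)]
  rw [e1]
  refine Eq.trans ?_ (h1.trans ?_)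
  · refine Finset.sum_congr rfl fun D _ => Finset.sum_congr ?_ fun _ _ => rfl
    ext Q
    simp only [Finset.mem_filter]
  · refine Finset.sum_congr rfl fun m _ => Finset.sum_congr rfl fun D _ =>
      Finset.sum_congr ?_ fun _ _ => rfl
    ext Q
    simp only [Finset.mem_filter, true_and]

theorem step1 (h2 : (2 : k) ≠ 0) (B : k[X]) (hB : B ≠ 0) (τ : k[X] → Prop) (M : ℕ) {x : ℝ}
    (hx : 0 ≤ x) (hx1 : x ≤ 1) (N : ℕ) :
    (N : ℝ) * SS B τ M x N ≤
      ∑ m ∈ Finset.Icc 1 N, (Nat.card k : ℝ) ^ m * SS B τ M x (N - m) := by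
  have e1 : (N : ℝ) * SS B τ M x N =
      ∑ D ∈ sqF B N, ∑ Q ∈ prD D, (Q.natDegree : ℝ) * x ^ bb τ M D := by
    rw [SS, Finset.mul_sum]
    refine Finset.sum_congr rfl fun D hD => ?_
    rw [mem_sqF] at hD
    rw [← Finset.sum_mul]
    congr 1
    have := dg_prD hD.1 hD.2.2.1
    rw [hD.2.1] at this
    rw [← this]
    unfold dg
    push_cast
    rfl
  rw [e1]
  refine (REM'' B N (fun D Q => (Q.natDegree : ℝ) * x ^ bb τ M D) h2 hB).trans_le ?_
  refine Finset.sum_le_sum fun m hm => ?_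
  rw [Finset.mem_Icc] at hm
  rw [SS, Finset.mul_sum]
  refine Finset.sum_le_sum fun D hD => ?_
  have hD' := mem_sqF.1 hD
  refine (Finset.sum_le_sum (g := fun _ => (m : ℝ) * x ^ bb τ M D) fun Q hQ => ?_).trans ?_
  · rw [Finset.mem_filter, mem_irrD] at hQ
    rw [hQ.1.2.2]
    refine mul_le_mul_of_nonneg_left ?_ (Nat.cast_nonneg _)
    refine pow_le_pow_of_le_one hx hx1 ?_
    unfold bb
    refine Finset.card_le_card (Finset.filter_subset_filter _ ?_)
    rw [prD_mul hD'.1 hQ.1.1 hQ.1.2.1]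
    exact Finset.subset_insert _ _
  refine (Finset.sum_le_sum_of_subset_of_nonneg (Finset.filter_subset _ _)
          fun _ _ _ => mul_nonneg (Nat.cast_nonneg _) (pow_nonneg hx _)).trans ?_
  rw [Finset.sum_const, nsmul_eq_mul]
  calc ((irrD k m).card : ℝ) * ((m : ℝ) * x ^ bb τ M D)
      = (m : ℝ) * (irrD k m).card * x ^ bb τ M D := by ring
    _ ≤ (Nat.card k : ℝ) ^ m * x ^ bb τ M D :=
        mul_le_mul_of_nonneg_right (irr_le (by omega)) (pow_nonneg hx _)

/-- the primes of degree at most `n` -/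
noncomputable def PP (k : Type) [Field k] [Finite k] (n : ℕ) : Finset k[X] :=
  (Finset.Icc 1 n).biUnion fun m => irrD k m

theorem mem_PP {n : ℕ} {Q : k[X]} : Q ∈ PP k n ↔ Q.Monic ∧ Irreducible Q ∧ Q.natDegree ≤ n := by
  unfold PP
  rw [Finset.mem_biUnion]
  simp only [mem_irrD, Finset.mem_Icc]
  constructor
  · rintro ⟨m, h1, h2, h3, h4⟩
    exact ⟨h2, h3, by omega⟩
  · rintro ⟨h1, h2, h3⟩
    exact ⟨_, ⟨h2.natDegree_pos, h3⟩, h1, h2, rfl⟩

theorem sum_PP (n : ℕ) (φ : k[X] → ℝ) :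
    ∑ Q ∈ PP k n, φ Q = ∑ m ∈ Finset.Icc 1 n, ∑ Q ∈ irrD k m, φ Q := by
  unfold PP
  rw [Finset.sum_biUnion]
  intro a _ b _ hab
  rw [Function.onFun, Finset.disjoint_left]
  intro Q h1 h2
  rw [mem_irrD] at h1 h2
  exact hab (h1.2.2.symm.trans h2.2.2)

theorem step3 (B : k[X]) (τ : k[X] → Prop) (M : ℕ) {x : ℝ} (hx : 0 ≤ x) (n : ℕ) :
    ∑ j ∈ Finset.range (n + 1), ((Nat.card k : ℝ) ^ j)⁻¹ * SS B τ M x j ≤
      ∏ Q ∈ PP k n, (1 + yy τ M x Q * ((Nat.card k : ℝ) ^ Q.natDegree)⁻¹) := by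
  have hq : (0 : ℝ) < Nat.card k := by
    exact_mod_cast Nat.card_pos
  set w : k[X] → ℝ := fun Q => yy τ M x Q * ((Nat.card k : ℝ) ^ Q.natDegree)⁻¹ with hw
  have hw0 : ∀ Q, 0 ≤ w Q := by
    intro Q
    simp only [hw]
    refine mul_nonneg ?_ (by positivity)
    unfold yy
    split_ifs
    · exact hx
    · exact zero_le_one
  have hterm : ∀ j, ∀ D ∈ sqF B j, ((Nat.card k : ℝ) ^ j)⁻¹ * x ^ bb τ M D =
      ∏ Q ∈ prD D, w Q := by
    intro j D hD
    rw [mem_sqF] at hD
    simp only [hw]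
    rw [Finset.prod_mul_distrib, prod_yy, Finset.prod_inv_distrib, Finset.prod_pow_eq_pow_sum]
    have := dg_prD hD.1 hD.2.2.1
    unfold dg at this
    rw [this, hD.2.1, mul_comm]
    rfl
  have e1 : ∑ j ∈ Finset.range (n + 1), ((Nat.card k : ℝ) ^ j)⁻¹ * SS B τ M x j =
      ∑ D ∈ (Finset.range (n + 1)).biUnion (fun j => sqF B j), ∏ Q ∈ prD D, w Q := by
    rw [Finset.sum_biUnion]
    · refine Finset.sum_congr rfl fun j _ => ?_
      rw [SS, Finset.mul_sum]
      exact Finset.sum_congr rfl (hterm j)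
    · intro a _ b _ hab
      rw [Function.onFun, Finset.disjoint_left]
      intro Q h1 h2
      rw [mem_sqF] at h1 h2
      exact hab (h1.2.1.symm.trans h2.2.1)
  rw [e1, Finset.prod_one_add]
  have hinj : Set.InjOn (prD (k := k)) ((Finset.range (n + 1)).biUnion (fun j => sqF B j) :
      Finset k[X]) := by
    intro D hD D' hD' h
    rw [Finset.mem_coe, Finset.mem_biUnion] at hD hD'
    obtain ⟨_, _, h1⟩ := hD
    obtain ⟨_, _, h2⟩ := hD'
    rw [mem_sqF] at h1 h2
    rw [← prod_prD h1.1 h1.2.2.1, ← prod_prD h2.1 h2.2.2.1, h]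
  rw [← Finset.sum_image (f := fun T : Finset k[X] => ∏ Q ∈ T, w Q) hinj]
  refine Finset.sum_le_sum_of_subset_of_nonneg ?_ fun T _ _ => Finset.prod_nonneg fun Q _ => hw0 Q
  intro T hT
  rw [Finset.mem_image] at hT
  obtain ⟨D, hD, rfl⟩ := hT
  rw [Finset.mem_biUnion] at hD
  obtain ⟨j, hj, hD⟩ := hD
  rw [mem_sqF] at hD
  rw [Finset.mem_range] at hj
  rw [Finset.mem_powerset]
  intro Q hQ
  rw [mem_prD hD.1.ne_zero] at hQ
  rw [mem_PP]
  refine ⟨hQ.1, hQ.2.1, ?_⟩
  have := Polynomial.natDegree_le_of_dvd hQ.2.2 hD.1.ne_zero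
  omega

end

theorem log_le_sum (M N : ℕ) (hMN : M ≤ N) :
    Real.log ((N + 1) / (M + 1)) ≤ ∑ m ∈ Finset.Ioc M N, 1 / (m : ℝ) := by
  induction N, hMN using Nat.le_induction with
  | base =>
    rw [div_self (by positivity), Real.log_one]
    simp
  | succ N hN ih =>
    rw [← Finset.insert_Ioc_right_eq_Ioc_add_one (by omega), Finset.sum_insert (by simp)]
    have h1 : Real.log (((N + 1 : ℕ) + 1) / (M + 1)) =
        Real.log (((N + 1 : ℕ) + 1) / (N + 1)) + Real.log ((N + 1) / (M + 1)) := by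
      rw [← Real.log_mul (by positivity) (by positivity)]
      congr 1
      field_simp
    rw [h1]
    have h2 : Real.log ((((N + 1 : ℕ) : ℝ) + 1) / (N + 1)) ≤ 1 / ((N + 1 : ℕ) : ℝ) := by
      have h3 := Real.log_le_sub_one_of_pos (show (0 : ℝ) < (((N + 1 : ℕ) : ℝ) + 1) / (N + 1) by
        positivity)
      refine h3.trans (le_of_eq ?_)
      push_cast
      field_simp
      ring
    linarith

theorem T_RAN : P_RAN := by
  intro k _ _ B h2 hB τ δ C₀ hδ hτ
  set q : ℝ := (Nat.card k : ℝ) with hq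
  have hq2 : (2 : ℝ) ≤ q := by
    rw [hq]; exact_mod_cast Finite.one_lt_card (α := k)
  have hq0 : 0 < q := by linarith
  set ρ : ℝ := (√q)⁻¹ with hρ
  have hsq : 1 < √q := by
    rw [Real.lt_sqrt (by norm_num)]; linarith
  have hρ0 : 0 ≤ ρ := by positivity
  have hρ1 : ρ < 1 := inv_lt_one_of_one_lt₀ hsq
  set K : ℝ := (1 - ρ)⁻¹ with hK
  have hKs : ∀ s : Finset ℕ, ∑ m ∈ s, ρ ^ m ≤ K := by
    intro s
    have := Summable.sum_le_tsum (f := fun m : ℕ => ρ ^ m) s (fun m _ => pow_nonneg hρ0 m)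
      (summable_geometric_of_lt_one hρ0 hρ1)
    rwa [tsum_geometric_of_lt_one hρ0 hρ1] at this
  refine ⟨Real.exp (1 + δ * Real.log 2 + |C₀| * K), fun x hx hx1 M N hM hMN => ?_⟩
  have hN : 1 ≤ N := hM.trans hMN
  have hNR : (0 : ℝ) < N := by exact_mod_cast hN
  have hMR : (1 : ℝ) ≤ M := by exact_mod_cast hM
  have hMN' : (M : ℝ) ≤ N := by exact_mod_cast hMN
  -- the exponent
  have hexp : ∑ Q ∈ PP k N, yy τ M x Q * (q ^ Q.natDegree)⁻¹ ≤
      1 + Real.log N - (1 - x) * δ * Real.log (N / M) + δ * Real.log 2 + |C₀| * K := by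
    rw [sum_PP]
    have hm : ∀ m ∈ Finset.Icc 1 N, ∑ Q ∈ irrD k m, yy τ M x Q * (q ^ Q.natDegree)⁻¹ ≤
        1 / (m : ℝ) - (if M < m then (1 - x) * δ * (1 / (m : ℝ)) else 0) + |C₀| * ρ ^ m := by
      intro m hm
      rw [Finset.mem_Icc] at hm
      have hmR : (0 : ℝ) < m := by exact_mod_cast hm.1
      have e1 : ∑ Q ∈ irrD k m, yy τ M x Q * (q ^ Q.natDegree)⁻¹ =
          (q ^ m)⁻¹ * ((irrD k m).card - if M < m then (1 - x) * ((irrD k m).filter τ).card
            else 0) := by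
        have e2 : ∑ Q ∈ irrD k m, yy τ M x Q * (q ^ Q.natDegree)⁻¹ =
            (q ^ m)⁻¹ * ∑ Q ∈ irrD k m, (1 - if τ Q ∧ M < m then (1 - x) else 0) := by
          rw [Finset.mul_sum]
          refine Finset.sum_congr rfl fun Q hQ => ?_
          rw [mem_irrD] at hQ
          unfold yy
          rw [hQ.2.2]
          split_ifs <;> ring
        rw [e2, Finset.sum_sub_distrib, Finset.sum_const, nsmul_eq_mul, mul_one,
          ← Finset.sum_filter, Finset.sum_const, nsmul_eq_mul]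
        congr 2
        split_ifs with h
        · rw [mul_comm]
          congr 3
          ext Q
          simp [h]
        · have : (irrD k m).filter (fun Q => τ Q ∧ M < m) = ∅ := by
            ext Q
            simp [h]
          rw [this]
          simp
      rw [e1]
      have hqm : 0 < q ^ m := by positivity
      have h3 : (q ^ m)⁻¹ * (irrD k m).card ≤ 1 / m := by
        rw [inv_mul_le_iff₀ hqm, mul_one_div, le_div_iff₀ hmR]
        have := irr_le (k := k) hm.1
        linarith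
      have h4 : (q ^ m)⁻¹ * √(q ^ m) = ρ ^ m := by
        have h5 : q ^ m = ((√q) ^ m) ^ 2 := by
          rw [← pow_mul, mul_comm, pow_mul, Real.sq_sqrt hq0.le]
        have h6 : (0 : ℝ) < √q ^ m := by positivity
        rw [h5, Real.sqrt_sq h6.le, hρ, inv_pow]
        field_simp
      have hx1' : 0 ≤ 1 - x := by linarith
      split_ifs with h
      · have h7 := hτ m hm.1
        have h8 : (q ^ m)⁻¹ * (δ * q ^ m / m - C₀ * √(q ^ m)) ≤
            (q ^ m)⁻¹ * ((irrD k m).filter τ).card :=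
          mul_le_mul_of_nonneg_left h7 (by positivity)
        have h9 : (q ^ m)⁻¹ * (δ * q ^ m / m - C₀ * √(q ^ m)) = δ * (1 / m) - C₀ * ρ ^ m := by
          rw [← h4]
          field_simp
        rw [h9] at h8
        have h10 := mul_le_mul_of_nonneg_left h8 hx1'
        have h11 : (1 - x) * (C₀ * ρ ^ m) ≤ |C₀| * ρ ^ m := by
          have h12 : C₀ * ρ ^ m ≤ |C₀| * ρ ^ m :=
            mul_le_mul_of_nonneg_right (le_abs_self _) (pow_nonneg hρ0 _)
          have h13 : 0 ≤ |C₀| * ρ ^ m := by positivity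
          calc (1 - x) * (C₀ * ρ ^ m) ≤ (1 - x) * (|C₀| * ρ ^ m) :=
                mul_le_mul_of_nonneg_left h12 hx1'
            _ ≤ 1 * (|C₀| * ρ ^ m) := mul_le_mul_of_nonneg_right (by linarith) h13
            _ = _ := one_mul _
        have h14 : (q ^ m)⁻¹ * (((irrD k m).card : ℝ) - (1 - x) * ((irrD k m).filter τ).card) =
            (q ^ m)⁻¹ * (irrD k m).card - (1 - x) * ((q ^ m)⁻¹ * ((irrD k m).filter τ).card) := by
          ring
        rw [h14]
        have h15 : (1 - x) * (δ * (1 / (m : ℝ)) - C₀ * ρ ^ m) =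
            (1 - x) * δ * (1 / (m : ℝ)) - (1 - x) * (C₀ * ρ ^ m) := by ring
        rw [h15] at h10
        linarith
      · have h13 : 0 ≤ |C₀| * ρ ^ m := by positivity
        rw [sub_zero, sub_zero]
        linarith
    refine (Finset.sum_le_sum hm).trans ?_
    rw [Finset.sum_add_distrib, Finset.sum_sub_distrib, ← Finset.mul_sum, ← Finset.sum_filter,
      ← Finset.mul_sum]
    have e1 : (Finset.Icc 1 N).filter (fun m => M < m) = Finset.Ioc M N := by
      ext m
      simp only [Finset.mem_filter, Finset.mem_Icc, Finset.mem_Ioc]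
      omega
    rw [e1]
    have e2 : ∑ m ∈ Finset.Icc 1 N, 1 / (m : ℝ) ≤ 1 + Real.log N := by
      have := harmonic_le_one_add_log N
      rw [harmonic_eq_sum_Icc] at this
      push_cast at this
      simpa only [one_div] using this
    have e3 := log_le_sum M N hMN
    have e4 : Real.log (N / M) - Real.log 2 ≤ Real.log ((N + 1) / (M + 1)) := by
      rw [← Real.log_div (by positivity) (by norm_num)]
      refine Real.log_le_log (by positivity) ?_
      rw [div_div, div_le_div_iff₀ (by positivity) (by positivity)]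
      nlinarith
    have e5 : (1 - x) * δ * (Real.log (N / M) - Real.log 2) ≤
        (1 - x) * δ * ∑ m ∈ Finset.Ioc M N, 1 / (m : ℝ) :=
      mul_le_mul_of_nonneg_left (e4.trans e3) (mul_nonneg (by linarith) hδ)
    have e6 : (1 - x) * δ * Real.log 2 ≤ δ * Real.log 2 := by
      have h1 : 0 ≤ δ * Real.log 2 := mul_nonneg hδ (Real.log_nonneg (by norm_num))
      have h2 : (1 - x) * δ * Real.log 2 = (1 - x) * (δ * Real.log 2) := by ring
      rw [h2]
      nlinarith
    have e7 : |C₀| * ∑ m ∈ Finset.Icc 1 N, ρ ^ m ≤ |C₀| * K :=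
      mul_le_mul_of_nonneg_left (hKs _) (abs_nonneg _)
    have e8 : (1 - x) * δ * (Real.log (N / M) - Real.log 2) =
        (1 - x) * δ * Real.log (N / M) - (1 - x) * δ * Real.log 2 := by ring
    linarith
  -- the product
  have hprod : ∏ Q ∈ PP k N, (1 + yy τ M x Q * (q ^ Q.natDegree)⁻¹) ≤
      Real.exp (1 + δ * Real.log 2 + |C₀| * K) * (N * ((M : ℝ) / N) ^ ((1 - x) * δ)) := by
    have h1 : ∏ Q ∈ PP k N, (1 + yy τ M x Q * (q ^ Q.natDegree)⁻¹) ≤
        Real.exp (∑ Q ∈ PP k N, yy τ M x Q * (q ^ Q.natDegree)⁻¹) := by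
      rw [Real.exp_sum]
      refine Finset.prod_le_prod (fun Q _ => ?_) fun Q _ => ?_
      · have : 0 ≤ yy τ M x Q := by
          unfold yy
          split_ifs
          · exact hx
          · exact zero_le_one
        positivity
      · rw [add_comm]
        exact Real.add_one_le_exp _
    refine (h1.trans (Real.exp_le_exp.2 hexp)).trans (le_of_eq ?_)
    have hMpos : (0 : ℝ) < M := by linarith
    have h3 : Real.log (N / M) = - Real.log ((M : ℝ) / N) := by
      rw [← Real.log_inv, inv_div]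
    have h4 : ((M : ℝ) / N) ^ ((1 - x) * δ) =
        Real.exp (Real.log ((M : ℝ) / N) * ((1 - x) * δ)) :=
      Real.rpow_def_of_pos (by positivity) _
    rw [h4, h3]
    nth_rewrite 3 [← Real.exp_log hNR]
    rw [← Real.exp_add, ← Real.exp_add]
    congr 1
    ring
  have h3 := (step3 (k := k) B τ M hx N).trans hprod
  have h1 := step1 h2 B hB τ M hx hx1 N
  have h4 : ∑ m ∈ Finset.Icc 1 N, q ^ m * SS B τ M x (N - m) ≤
      q ^ N * ∑ j ∈ Finset.range (N + 1), (q ^ j)⁻¹ * SS B τ M x j := by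
    have e1 : ∑ m ∈ Finset.Icc 1 N, q ^ m * SS B τ M x (N - m) =
        ∑ j ∈ Finset.range N, q ^ N * ((q ^ j)⁻¹ * SS B τ M x j) := by
      refine Finset.sum_bij' (i := fun m _ => N - m) (j := fun j _ => N - j) ?_ ?_ ?_ ?_ ?_
      · intro m hm
        rw [Finset.mem_Icc] at hm
        rw [Finset.mem_range]
        omega
      · intro m hm
        rw [Finset.mem_range] at hm
        rw [Finset.mem_Icc]
        omega
      · intro m hm
        rw [Finset.mem_Icc] at hm
        omega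
      · intro m hm
        rw [Finset.mem_range] at hm
        omega
      · intro m hm
        rw [Finset.mem_Icc] at hm
        have : q ^ N = q ^ m * q ^ (N - m) := by
          rw [← pow_add]; congr 1; omega
        rw [this]
        have : q ^ (N - m) ≠ 0 := by positivity
        field_simp
    rw [e1, ← Finset.mul_sum]
    refine mul_le_mul_of_nonneg_left ?_ (by positivity)
    refine Finset.sum_le_sum_of_subset_of_nonneg ?_ fun j _ _ =>
      mul_nonneg (by positivity) (SS_nonneg B τ M hx j)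
    intro j hj
    rw [Finset.mem_range] at hj ⊢
    omega
  have h5 : (N : ℝ) * SS B τ M x N ≤ N * (Real.exp (1 + δ * Real.log 2 + |C₀| * K) * q ^ N *
      ((M : ℝ) / N) ^ ((1 - x) * δ)) := by
    refine (h1.trans h4).trans ((mul_le_mul_of_nonneg_left h3 (by positivity)).trans
      (le_of_eq ?_))
    ring
  exact le_of_mul_le_mul_left h5 hNR

end Run7.h704.PL
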