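import Pool.Agent.Run7.h286.PL.StmM
import Pool.Agent.Run7.h704.PL.RAN
import Pool.Agent.Run7.h957.PL.S1
import Pool.Agent.Run7.h382.TG.AVG

/-!
# Project PRL (helper286), piece AVM (helper704)

All exponential moments of the dimension are bounded (average over all local classes).
-/

set_option autoImplicit false
set_option linter.all false

open Polynomial IsDedekindDomain
open scoped Classical

namespace Run7.h704.PL.AVM

open Pool.Agent.N874.PP (Ov Ev Sq1)
open Pool.Agent.N352.PJ (IsGen Crd LocIm SelZero Fam GoodR Ht dsc)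
open Run7.h550.TS (mem_prD eq_of_dvd prD_mul dg_prD sqf_fin sq mem_sq card_sq mem_irrD pr mem_pr
  sq_mul sq_div count_id)
open Run7.h875.TS (chi cd IsPC GSq irrD dg NRs uT sqf prD sqL sz Tr)
open Run7.h784.TG
open Run7.h286.PL
open Run7.h957.PL (goodT_insert goodT_uT av_insert nrs_ndvd del0_pos)

/-! ### The renewal inequality -/

theorem renewal (τ : ℕ → ℝ) (hτ : ∀ n, 0 ≤ τ n) (C₀ : ℝ) (q : ℝ) (hq : 2 ≤ q)
    (ρ A M : ℝ) (hρ0 : 0 ≤ ρ) (hρ : ρ < 1) (hA : 0 ≤ A) (hM : 0 ≤ M) (f : ℕ → ℕ → ℝ)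
    (h1 : ∀ N, N * τ N ≤ ∑ m ∈ Finset.Icc 1 N, f N m)
    (h2 : ∀ N m, 1 ≤ m → m ≤ N →
      f N m ≤ ρ * τ (N - m) + A + C₀ * (1 + N) / √(q ^ m) * τ (N - m))
    (h3 : ∀ N m, 1 ≤ m → m ≤ N → f N m ≤ M * τ (N - m)) : ∃ B : ℝ, ∀ N, τ N ≤ B := by
  obtain ⟨δ, hδ0, hδ⟩ : ∃ δ : ℝ, 0 < δ ∧ ρ + 4 * δ = 1 := ⟨(1 - ρ) / 4, by linarith, by ring⟩
  set J : ℕ := ⌈M / δ⌉₊ + 1 with hJ
  have hJ1 : (1 : ℝ) ≤ J := by rw [hJ]; push_cast; linarith [Nat.cast_nonneg (α := ℝ) ⌈M / δ⌉₊]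
  have hJ0 : (0 : ℝ) < J := by linarith
  have hJM : M ≤ δ * J := by
    have : M / δ ≤ J := by
      rw [hJ]
      push_cast
      linarith [Nat.le_ceil (M / δ)]
    rwa [div_le_iff₀ hδ0, mul_comm] at this
  obtain ⟨N₁, hN₁⟩ := Run7.h382.TG.AVG.evn (C₀ / δ) (1 / (2 * J)) (by positivity)
  obtain ⟨B₀, hB₀⟩ : ∃ B₀ : ℝ, ∀ n ≤ N₁, τ n ≤ B₀ :=
    ⟨∑ n ∈ Finset.range (N₁ + 1), τ n, fun n hn =>
      Finset.single_le_sum (f := τ) (fun i _ => hτ i) (Finset.mem_range.2 (by omega))⟩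
  set B := max B₀ (A / δ) with hB
  have hBA : A ≤ δ * B := by
    have : A / δ ≤ B := le_max_right _ _
    rwa [div_le_iff₀ hδ0, mul_comm] at this
  have hB0 : 0 ≤ B := le_trans (by positivity) (le_max_right _ _)
  refine ⟨B, fun N => ?_⟩
  induction N using Nat.strong_induction_on with
  | _ N ih =>
    rcases le_or_gt N N₁ with hN | hN
    · exact (hB₀ N hN).trans (le_max_left _ _)
    have hN0 : 0 < N := by omega
    have hbd : ∀ m ∈ Finset.Icc 1 N, f N m ≤ if m ≤ N / J then M * B else (ρ + δ) * B + A := by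
      intro m hm
      rw [Finset.mem_Icc] at hm
      have hlt : τ (N - m) ≤ B := ih _ (by omega)
      have h0 : 0 ≤ τ (N - m) := hτ _
      split_ifs with hmN
      · exact (h3 N m hm.1 hm.2).trans (mul_le_mul_of_nonneg_left hlt hM)
      · refine (h2 N m hm.1 hm.2).trans ?_
        have hm' : (N : ℝ) / J ≤ m := by
          rw [div_le_iff₀ hJ0]
          have h4 : N < m * J := (Nat.div_lt_iff_lt_mul (by omega)).1 (not_le.1 hmN)
          exact_mod_cast h4.le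
        have h5 : (2 : ℝ) ^ (1 / (2 * (J : ℝ)) * (N : ℝ)) ≤ √(q ^ m) := by
          apply Real.le_sqrt_of_sq_le
          rw [← Real.rpow_natCast, ← Real.rpow_mul (by norm_num)]
          calc (2 : ℝ) ^ (1 / (2 * (J : ℝ)) * (N : ℝ) * (2 : ℕ)) ≤ (2 : ℝ) ^ (m : ℝ) := by
                apply Real.rpow_le_rpow_of_exponent_le (by norm_num)
                push_cast
                refine le_trans (le_of_eq ?_) hm'
                field_simp
            _ = 2 ^ m := Real.rpow_natCast _ _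
            _ ≤ q ^ m := pow_le_pow_left₀ (by norm_num) hq m
        have h6 := hN₁ N hN.le
        have hpos : 0 < √(q ^ m) := Real.sqrt_pos.2 (by positivity)
        have h7 : C₀ * (1 + N) / √(q ^ m) ≤ δ := by
          rw [div_le_iff₀ hpos]
          have h6' : C₀ / δ * (1 + N) ≤ √(q ^ m) := h6.trans h5
          have h6'' : C₀ * (1 + N) = δ * (C₀ / δ * (1 + N)) := by field_simp
          rw [h6'']
          exact mul_le_mul_of_nonneg_left h6' hδ0.le
        have h8 : C₀ * (1 + N) / √(q ^ m) * τ (N - m) ≤ δ * τ (N - m) :=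
          mul_le_mul_of_nonneg_right h7 h0
        nlinarith
    have h9 := (h1 N).trans (Finset.sum_le_sum hbd)
    have hMB : 0 ≤ M * B := mul_nonneg hM hB0
    have hρB : 0 ≤ (ρ + δ) * B + A := by positivity
    have h10 : ∑ m ∈ Finset.Icc 1 N, (if m ≤ N / J then M * B else (ρ + δ) * B + A) ≤
        N * ((ρ + δ) * B + A) + (N / J : ℕ) * (M * B) := by
      have : ∀ m ∈ Finset.Icc 1 N, (if m ≤ N / J then M * B else (ρ + δ) * B + A) ≤
          ((ρ + δ) * B + A) + if m ≤ N / J then M * B else 0 := by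
        intro m _
        split_ifs <;> linarith
      refine (Finset.sum_le_sum this).trans ?_
      rw [Finset.sum_add_distrib, Finset.sum_const, Nat.card_Icc, ← Finset.sum_filter,
        Finset.sum_const, nsmul_eq_mul, nsmul_eq_mul]
      have h11 : ((Finset.Icc 1 N).filter (fun m => m ≤ N / J)).card ≤ N / J := by
        calc _ ≤ (Finset.Icc 1 (N / J)).card := Finset.card_le_card (by
              intro m hm
              rw [Finset.mem_filter, Finset.mem_Icc] at hm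
              rw [Finset.mem_Icc]
              exact ⟨hm.1.1, hm.2⟩)
          _ = N / J := by simp
      have h12 : (((Finset.Icc 1 N).filter (fun m => m ≤ N / J)).card : ℝ) ≤ (N / J : ℕ) := by
        exact_mod_cast h11
      have h13 : (N + 1 - 1 : ℕ) = N := by omega
      rw [h13]
      have : (((Finset.Icc 1 N).filter (fun m => m ≤ N / J)).card : ℝ) * (M * B) ≤
          (N / J : ℕ) * (M * B) := mul_le_mul_of_nonneg_right h12 hMB
      linarith
    have h14 : ((N / J : ℕ) : ℝ) ≤ N / J := by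
      rw [le_div_iff₀ hJ0]
      exact_mod_cast Nat.div_mul_le_self N J
    have h15 : ((N / J : ℕ) : ℝ) * (M * B) ≤ N * (δ * B) := by
      calc ((N / J : ℕ) : ℝ) * (M * B) ≤ (N : ℝ) / J * (M * B) :=
            mul_le_mul_of_nonneg_right h14 hMB
        _ ≤ (N : ℝ) / J * ((δ * J) * B) := by
            have : M * B ≤ (δ * J) * B := mul_le_mul_of_nonneg_right (by linarith) hB0
            exact mul_le_mul_of_nonneg_left this (by positivity)
        _ = N * (δ * B) := by field_simp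
    have hNpos : (0 : ℝ) < N := by exact_mod_cast hN0
    have h16 : (N : ℝ) * τ N ≤ N * B := by
      calc (N : ℝ) * τ N ≤ N * ((ρ + δ) * B + A) + N * (δ * B) := by linarith
        _ = N * ((ρ + 2 * δ) * B + A) := by ring
        _ ≤ N * B := by
            refine mul_le_mul_of_nonneg_left ?_ hNpos.le
            have : 0 ≤ δ * B := by positivity
            nlinarith
    exact le_of_mul_le_mul_left h16 hNpos

section main

variable {k K L O : Type} [Field k] [Finite k] [Field K] [Algebra k[X] K]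
  [IsFractionRing k[X] K]
  [Field L] [Algebra K L] [Algebra k[X] L] [IsScalarTower k[X] K L] [CommRing O]
  [IsDedekindDomain O] [Algebra O L] [IsFractionRing O L] [Algebra k[X] O]
  [IsScalarTower k[X] O L] [IsIntegralClosure O k[X] L] {g N₀ : ℕ} {r : k[X]} {f : k[X][X]} {θ : L}

theorem sz_ne (hREP : P_REP) (hGRP : P_GRP) (hF : Fm g N₀ r f) (h : IsGen g K f θ)
    {S : Finset k[X]} {u : k[X] → k[X]} (hu : GoodT g f S u) : sz (SelG O K f θ S u) ≠ 0 :=
  (hREP k K L O g N₀ r f θ hF h).2 S u hu ((hGRP k K L O g N₀ r f θ hF h).2 S u hu).1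

/-- one prime, not exceptional: dimension -/
theorem one_pt (hSTEP : P_STEP) (hREP : P_REP) (hGRP : P_GRP)
    (hTRB : ∀ (S : Finset k[X]) (u : k[X] → k[X]), GoodT g f S u → ∀ Q : k[X], Q.Monic →
      Irreducible Q → Q ∉ S → ¬ Q ∣ dsc g f → ∀ w : k[X], ¬ Q ∣ w →
      ld (SelG O K f θ (insert Q S) (Function.update u Q w)) ≤ ld (SelG O K f θ S u) + 2 * g)
    (hF : Fm g N₀ r f) (h : IsGen g K f θ) {y : ℝ} (hy : 1 < y)
    {S : Finset k[X]} {u : k[X] → k[X]} (hu : GoodT g f S u) {Q : k[X]} (hQm : Q.Monic)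
    (hQi : Irreducible Q) (hQS : Q ∉ S) (hQd : ¬ Q ∣ dsc g f) {w : k[X]} (hw : ¬ Q ∣ w) :
    y ^ ld (SelG O K f θ (insert Q S) (Function.update u Q w)) ≤
      y ^ ld (SelG O K f θ S u) * (1 / y + (if nr O Q = 1 then 1 - 1 / y else 0) +
        if sz (SelG O K f θ S u) < 2 ^ (nr O Q - 1) *
          sz (SelG O K f θ (insert Q S) (Function.update u Q w)) then y ^ (2 * g) else 0) := by
  have hy0 : 0 < y := by linarith
  have hyi : 1 / y ≤ 1 := by rw [div_le_one hy0]; exact hy.le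
  have hyi0 : 0 < 1 / y := by positivity
  have hn := sz_ne (O := O) (K := K) (θ := θ) hREP hGRP hF h hu
  have hn' := sz_ne (O := O) (K := K) (θ := θ) hREP hGRP hF h (goodT_insert hu hQm hQi hQS hQd hw)
  have hp : 0 < y ^ ld (SelG O K f θ S u) := by positivity
  have hnr := (hSTEP k K L O g N₀ r f θ hF h S u hu hn Q hQm hQi hQS hQd w hw).1
  by_cases hE : sz (SelG O K f θ S u) < 2 ^ (nr O Q - 1) *
          sz (SelG O K f θ (insert Q S) (Function.update u Q w))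
  · rw [if_pos hE]
    have h1 := hTRB S u hu Q hQm hQi hQS hQd w hw
    have h2 : y ^ ld (SelG O K f θ (insert Q S) (Function.update u Q w)) ≤
        y ^ ld (SelG O K f θ S u) * y ^ (2 * g) := by
      rw [← pow_add]
      exact pow_le_pow_right₀ hy.le h1
    refine h2.trans (mul_le_mul_of_nonneg_left ?_ hp.le)
    split_ifs <;> linarith
  · rw [if_neg hE, add_zero]
    push Not at hE
    by_cases h1 : nr O Q = 1
    · rw [if_pos h1]
      rw [h1] at hE
      simp only [Nat.sub_self, pow_zero, one_mul] at hE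
      have h2 : ld (SelG O K f θ (insert Q S) (Function.update u Q w)) ≤ ld (SelG O K f θ S u) :=
        Nat.log_mono_right hE
      have h3 : 1 / y + (1 - 1 / y) = 1 := by ring
      rw [h3, mul_one]
      exact pow_le_pow_right₀ hy.le h2
    · rw [if_neg h1, add_zero]
      have h4 : 2 * sz (SelG O K f θ (insert Q S) (Function.update u Q w)) ≤
          sz (SelG O K f θ S u) := by
        refine le_trans (Nat.mul_le_mul_right _ ?_) hE
        calc 2 = 2 ^ 1 := by norm_num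
          _ ≤ 2 ^ (nr O Q - 1) := Nat.pow_le_pow_right (by norm_num) (by omega)
      have h5 : ld (SelG O K f θ (insert Q S) (Function.update u Q w)) + 1 ≤
          ld (SelG O K f θ S u) := by
        unfold ld
        rw [← Nat.log_mul_base (by norm_num) hn', mul_comm]
        exact Nat.log_mono_right h4
      rw [mul_one_div, le_div_iff₀ hy0, ← pow_succ]
      exact pow_le_pow_right₀ hy.le h5

/-- the sum over the primes of degree `m` -/
theorem one_sum (hONE2 : P_ONE2) (hTRB : P_TRB) (hLAST2 : P_LAST2) (hSTEP : P_STEP)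
    (hREP : P_REP) (hGRP : P_GRP) (hF : Fm g N₀ r f) (hfull : Full f) (h : IsGen g K f θ)
    {y : ℝ} (hy : 1 < y) :
    ∃ ρ A C : ℝ, 0 ≤ ρ ∧ ρ < 1 ∧ 0 ≤ A ∧ 0 ≤ C ∧
    ∀ (S : Finset k[X]) (u : k[X] → k[X]), GoodT g f S u → ∀ w : k[X] → k[X],
    (∀ Q : k[X], Irreducible Q → ¬ Q ∣ w Q) → ∀ m : ℕ, 0 < m →
    (m : ℝ) * ∑ Q ∈ (irrD k m).filter (fun Q => Q ∉ S ∧ ¬ Q ∣ dsc g f),
        y ^ ld (SelG O K f θ (insert Q S) (Function.update u Q (w Q))) ≤
      (ρ * y ^ ld (SelG O K f θ S u) + A) * (Nat.card k : ℝ) ^ m +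
        C * (1 + m + dg S) * √((Nat.card k : ℝ) ^ m) * y ^ ld (SelG O K f θ S u) := by
  obtain ⟨C₁, hC₁⟩ := hLAST2 k g N₀ r f hF hfull
  obtain ⟨C₂, hC₂⟩ := hONE2 k K L O g N₀ r f θ hF hfull h
  obtain ⟨hT, -⟩ := hTRB k K L O g N₀ r f θ hF h
  have hy0 : 0 < y := by linarith
  have hyi : 1 / y < 1 := by rw [div_lt_one hy0]; exact hy
  have hyi0 : 0 < 1 / y := by positivity
  have hd0 : 0 < del0 g := del0_pos g
  have hd1 : del0 g < 1 := by
    unfold del0
    have : (1 : ℝ) ≤ g := by exact_mod_cast hF.g1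
    rw [div_lt_one (by positivity)]
    linarith
  obtain ⟨η, hη0, hη⟩ : ∃ η : ℝ, 0 < η ∧ (1 / y + (1 - 1 / y) * del0 g) + 2 * η = 1 := by
    refine ⟨(1 - (1 / y + (1 - 1 / y) * del0 g)) / 2, ?_, by ring⟩
    have : 0 < (1 - 1 / y) * (1 - del0 g) := mul_pos (by linarith) (by linarith)
    nlinarith
  -- the bound of `y ^ d / 2 ^ d`
  obtain ⟨d₀, hd₀⟩ : ∃ d₀ : ℕ, y ^ (2 * g) * C₂ * (1 / 2 : ℝ) ^ d₀ ≤ η := by
    obtain ⟨n, hn⟩ := exists_pow_lt_of_lt_one (show 0 < η / (y ^ (2 * g) * C₂ + 1) by positivity)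
      (show (1 / 2 : ℝ) < 1 by norm_num)
    refine ⟨n, ?_⟩
    have h1 : y ^ (2 * g) * C₂ * (1 / 2 : ℝ) ^ n ≤ (y ^ (2 * g) * C₂ + 1) * (1 / 2 : ℝ) ^ n :=
      mul_le_mul_of_nonneg_right (by linarith) (by positivity)
    refine h1.trans ?_
    rw [lt_div_iff₀ (by positivity)] at hn
    linarith
  set A : ℝ := y ^ d₀ * (y ^ (2 * g) * C₂) with hA
  have hAb : ∀ d : ℕ, y ^ d * (y ^ (2 * g) * C₂ * (1 / 2 : ℝ) ^ d) ≤ η * y ^ d + A := by
    intro d
    rcases le_or_gt d₀ d with hd | hd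
    · have h1 : (1 / 2 : ℝ) ^ d ≤ (1 / 2 : ℝ) ^ d₀ :=
        pow_le_pow_of_le_one (by norm_num) (by norm_num) hd
      have h2 : y ^ (2 * g) * C₂ * (1 / 2 : ℝ) ^ d ≤ η :=
        (mul_le_mul_of_nonneg_left h1 (by positivity)).trans hd₀
      have h3 : y ^ d * (y ^ (2 * g) * C₂ * (1 / 2 : ℝ) ^ d) ≤ y ^ d * η :=
        mul_le_mul_of_nonneg_left h2 (by positivity)
      have : 0 ≤ A := by positivity
      linarith
    · have h1 : y ^ d ≤ y ^ d₀ := pow_le_pow_right₀ hy.le hd.le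
      have h2 : y ^ (2 * g) * C₂ * (1 / 2 : ℝ) ^ d ≤ y ^ (2 * g) * C₂ := by
        have : (1 / 2 : ℝ) ^ d ≤ 1 := pow_le_one₀ (by norm_num) (by norm_num)
        exact mul_le_of_le_one_right (by positivity) this
      have h3 : y ^ d * (y ^ (2 * g) * C₂ * (1 / 2 : ℝ) ^ d) ≤ y ^ d₀ * (y ^ (2 * g) * C₂) :=
        mul_le_mul h1 h2 (by positivity) (by positivity)
      have : 0 ≤ η * y ^ d := by positivity
      linarith
  refine ⟨(1 / y + (1 - 1 / y) * del0 g) + η, A, C₁ + y ^ (2 * g) * C₂, by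
      have : 0 ≤ (1 - 1 / y) * del0 g := mul_nonneg (by linarith) hd0.le
      linarith, by linarith, by positivity, by positivity, ?_⟩
  intro S u hu w hw m hm
  set q : ℝ := (Nat.card k : ℝ) with hq
  have hq2 : (2 : ℝ) ≤ q := by
    rw [hq]
    exact_mod_cast Finite.one_lt_card (α := k)
  set G := SelG O K f θ S u with hG
  set d := ld G with hd
  set G' : k[X] → Subgroup Lˣ := fun Q => SelG O K f θ (insert Q S) (Function.update u Q (w Q))
    with hG'
  set 𝒬 := (irrD k m).filter (fun Q => Q ∉ S ∧ ¬ Q ∣ dsc g f) with h𝒬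
  have hn := sz_ne (O := O) (K := K) (θ := θ) hREP hGRP hF h hu
  have hpt : ∀ Q ∈ 𝒬, y ^ ld (G' Q) ≤ y ^ d * (1 / y + (if nr O Q = 1 then 1 - 1 / y else 0) +
      if sz G < 2 ^ (nr O Q - 1) * sz (G' Q) then y ^ (2 * g) else 0) := by
    intro Q hQ
    rw [h𝒬, Finset.mem_filter, mem_irrD] at hQ
    exact one_pt hSTEP hREP hGRP hT hF h hy hu hQ.1.1 hQ.1.2.1 hQ.2.1 hQ.2.2 (hw Q hQ.1.2.1)
  have hsum := Finset.sum_le_sum hpt
  rw [← Finset.mul_sum, Finset.sum_add_distrib, Finset.sum_add_distrib, Finset.sum_const,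
    ← Finset.sum_filter, ← Finset.sum_filter, Finset.sum_const, Finset.sum_const, nsmul_eq_mul,
    nsmul_eq_mul, nsmul_eq_mul] at hsum
  have hm0 : (0 : ℝ) ≤ m := by positivity
  have hB1 : 0 ≤ √(q ^ m) := Real.sqrt_nonneg _
  -- the three numbers
  have c1 : (m : ℝ) * (𝒬.card : ℝ) ≤ q ^ m := by
    refine le_trans (mul_le_mul_of_nonneg_left ?_ hm0) (irr_le (k := k) hm)
    exact_mod_cast Finset.card_filter_le _ _
  have c2 : (m : ℝ) * ((𝒬.filter fun Q => nr O Q = 1).card : ℝ) ≤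
      del0 g * q ^ m + C₁ * m * √(q ^ m) := by
    have e1 := hC₁ K L O θ h ∅ (fun _ => True) (by simp) m hm
    have e2 := (abs_le.1 e1).2
    have e3 : (((𝒬.filter fun Q => nr O Q = 1).card : ℕ) : ℝ) ≤
        (((irrD k m).filter fun Q => ¬ Q ∣ dsc g f ∧ nr O Q = 1 ∧ Q ∉ (∅ : Finset k[X]) ∧
          ∀ P ∈ (∅ : Finset k[X]), (∃ z : k[X], P ∣ z ^ 2 - Q) ↔ (fun _ => True) P).card : ℝ) := by
      have : (𝒬.filter fun Q => nr O Q = 1) ⊆
          ((irrD k m).filter fun Q => ¬ Q ∣ dsc g f ∧ nr O Q = 1 ∧ Q ∉ (∅ : Finset k[X]) ∧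
          ∀ P ∈ (∅ : Finset k[X]), (∃ z : k[X], P ∣ z ^ 2 - Q) ↔ (fun _ => True) P) := by
        intro Q hQ
        rw [Finset.mem_filter, h𝒬, Finset.mem_filter] at hQ
        rw [Finset.mem_filter]
        exact ⟨hQ.1.1, hQ.1.2.2, hQ.2, by simp, by simp⟩
      exact_mod_cast Finset.card_le_card this
    have e4 : (dg (∅ : Finset k[X]) : ℝ) = 0 := by
      unfold dg
      simp
    rw [e4, Finset.card_empty, pow_zero, mul_one, add_zero, mul_one] at e2
    have hmp : (0 : ℝ) < m := by exact_mod_cast hm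
    have e5 : (m : ℝ) * (del0 g * q ^ m / m) = del0 g * q ^ m := by field_simp
    have e7 := le_trans e3 (sub_le_iff_le_add.1 e2)
    have e6 : (m : ℝ) * ((𝒬.filter fun Q => nr O Q = 1).card : ℝ) ≤
        m * (del0 g * q ^ m / m + C₁ * √(q ^ m)) :=
      mul_le_mul_of_nonneg_left (by linarith) hm0
    rw [mul_add, e5] at e6
    linarith
  have c3 : (m : ℝ) * ((𝒬.filter fun Q => sz G < 2 ^ (nr O Q - 1) * sz (G' Q)).card : ℝ) ≤
      C₂ * (1 / 2 : ℝ) ^ d * q ^ m + C₂ * (1 + dg S) * √(q ^ m) := by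
    have e1 := hC₂ S u hu w hw m hm
    have e2 : (𝒬.filter fun Q => sz G < 2 ^ (nr O Q - 1) * sz (G' Q)) =
        (irrD k m).filter (fun Q => Q ∉ S ∧ ¬ Q ∣ dsc g f ∧
        sz (SelG O K f θ S u) < 2 ^ (nr O Q - 1) *
          sz (SelG O K f θ (insert Q S) (Function.update u Q (w Q)))) := by
      rw [h𝒬, Finset.filter_filter]
      refine Finset.filter_congr fun Q _ => ?_
      rw [and_assoc]
    rw [← e2] at e1
    have hs : (0 : ℝ) < sz G := by exact_mod_cast Nat.pos_of_ne_zero hn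
    have hs2 : (1 : ℝ) ≤ (1 / 2 : ℝ) ^ d * sz G := by
      have e3 : 2 ^ d ≤ sz G := Nat.pow_log_le_self 2 hn
      have e4 : (2 : ℝ) ^ d ≤ sz G := by exact_mod_cast e3
      calc (1 : ℝ) = (1 / 2 : ℝ) ^ d * 2 ^ d := by rw [← mul_pow]; norm_num
        _ ≤ _ := mul_le_mul_of_nonneg_left e4 (by positivity)
    have e5 : (C₂ : ℝ) * q ^ m ≤ C₂ * q ^ m * ((1 / 2 : ℝ) ^ d * sz G) :=
      le_mul_of_one_le_right (by positivity) hs2
    refine le_of_mul_le_mul_right ?_ hs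
    calc _ ≤ C₂ * q ^ m + C₂ * (1 + dg S) * √(q ^ m) * sz G := e1
      _ ≤ C₂ * q ^ m * ((1 / 2 : ℝ) ^ d * sz G) + C₂ * (1 + dg S) * √(q ^ m) * sz G := by linarith
      _ = _ := by ring
  have hyd : 0 < y ^ d := by positivity
  set a : ℝ := (𝒬.card : ℝ) with ha
  set b : ℝ := ((𝒬.filter fun Q => nr O Q = 1).card : ℝ) with hb
  set c : ℝ := ((𝒬.filter fun Q => sz G < 2 ^ (nr O Q - 1) * sz (G' Q)).card : ℝ) with hc
  have t1 : (m : ℝ) * ∑ Q ∈ 𝒬, y ^ ld (G' Q) ≤
      y ^ d * (1 / y * (m * a) + (1 - 1 / y) * (m * b) + y ^ (2 * g) * (m * c)) := by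
    refine (mul_le_mul_of_nonneg_left hsum hm0).trans (le_of_eq ?_)
    ring
  have hdg : (0 : ℝ) ≤ dg S := by positivity
  have t2 : 1 / y * (m * a) + (1 - 1 / y) * (m * b) + y ^ (2 * g) * (m * c) ≤
      (1 / y + (1 - 1 / y) * del0 g) * q ^ m + y ^ (2 * g) * C₂ * (1 / 2 : ℝ) ^ d * q ^ m +
        (C₁ + y ^ (2 * g) * C₂) * (1 + m + dg S) * √(q ^ m) := by
    have s1 : 1 / y * (m * a) ≤ 1 / y * q ^ m := mul_le_mul_of_nonneg_left c1 hyi0.le
    have s2 : (1 - 1 / y) * (m * b) ≤ (1 - 1 / y) * (del0 g * q ^ m + C₁ * m * √(q ^ m)) :=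
      mul_le_mul_of_nonneg_left c2 (by linarith)
    have s3 : y ^ (2 * g) * (m * c) ≤ y ^ (2 * g) *
        (C₂ * (1 / 2 : ℝ) ^ d * q ^ m + C₂ * (1 + dg S) * √(q ^ m)) :=
      mul_le_mul_of_nonneg_left c3 (by positivity)
    have s4 : (1 - 1 / y) * (C₁ * m * √(q ^ m)) ≤ C₁ * (1 + m + dg S) * √(q ^ m) := by
      have u1 : (1 - 1 / y) * (C₁ * m * √(q ^ m)) ≤ C₁ * m * √(q ^ m) :=
        mul_le_of_le_one_left (by positivity) (by linarith)
      have u2 : (C₁ : ℝ) * m * √(q ^ m) ≤ C₁ * (1 + m + dg S) * √(q ^ m) := by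
        gcongr
        linarith
      linarith
    have s5 : y ^ (2 * g) * (C₂ * (1 + dg S) * √(q ^ m)) ≤
        y ^ (2 * g) * C₂ * (1 + m + dg S) * √(q ^ m) := by
      have : y ^ (2 * g) * (C₂ * (1 + dg S) * √(q ^ m)) =
        y ^ (2 * g) * C₂ * (1 + dg S) * √(q ^ m) := by ring
      rw [this]
      gcongr
      linarith
    nlinarith
  have t3 := mul_le_mul_of_nonneg_left t2 hyd.le
  have t4 : y ^ d * (y ^ (2 * g) * C₂ * (1 / 2 : ℝ) ^ d) * q ^ m ≤ (η * y ^ d + A) * q ^ m :=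
    mul_le_mul_of_nonneg_right (hAb d) (by positivity)
  refine (t1.trans t3).trans ?_
  have t5 : y ^ d * ((1 / y + (1 - 1 / y) * del0 g) * q ^ m +
      y ^ (2 * g) * C₂ * (1 / 2 : ℝ) ^ d * q ^ m +
        (C₁ + y ^ (2 * g) * C₂) * (1 + m + dg S) * √(q ^ m)) =
      (1 / y + (1 - 1 / y) * del0 g) * y ^ d * q ^ m +
        y ^ d * (y ^ (2 * g) * C₂ * (1 / 2 : ℝ) ^ d) * q ^ m +
        (C₁ + y ^ (2 * g) * C₂) * (1 + m + dg S) * √(q ^ m) * y ^ d := by ring
  rw [t5]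
  have t6 : ((1 / y + (1 - 1 / y) * del0 g + η) * y ^ d + A) * q ^ m =
      (1 / y + (1 - 1 / y) * del0 g) * y ^ d * q ^ m + (η * y ^ d + A) * q ^ m := by ring
  rw [t6]
  linarith

theorem av_nonneg (nrs : k[X] → k[X]) {y : ℝ} (hy : 0 ≤ y) (S : Finset k[X]) :
    0 ≤ av O K f θ nrs (fun d => y ^ d) S := by
  unfold av
  positivity

theorem av_mono (nrs : k[X] → k[X]) {y y' : ℝ} (hy : 0 ≤ y) (hyy : y ≤ y') (S : Finset k[X]) :
    av O K f θ nrs (fun d => y ^ d) S ≤ av O K f θ nrs (fun d => y' ^ d) S := by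
  unfold av
  refine mul_le_mul_of_nonneg_left (Finset.sum_le_sum fun T _ => ?_) (by positivity)
  exact pow_le_pow_left₀ hy hyy _

theorem avm_main (hONE2 : P_ONE2) (hTRB : P_TRB) (hLAST2 : P_LAST2) (hSTEP : P_STEP)
    (hREP : P_REP) (hGRP : P_GRP) (hF : Fm g N₀ r f) (hfull : Full f) (h : IsGen g K f θ)
    (nrs : k[X] → k[X]) (hg : NRs nrs) {y : ℝ} (hy : 1 < y) : ∃ B : ℝ, ∀ N : ℕ,
      ∑ D ∈ sq (dsc g f) N, av O K f θ nrs (fun d => y ^ d) (prD D) ≤
        B * (Nat.card k : ℝ) ^ N := by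
  obtain ⟨ρ, A, C₀, hρ0, hρ1, hA0, hC0, hC₀⟩ := one_sum (O := O) (K := K) (θ := θ) hONE2 hTRB hLAST2
    hSTEP hREP hGRP hF hfull h hy
  obtain ⟨hT, -⟩ := hTRB k K L O g N₀ r f θ hF h
  have hy0 : 0 < y := by linarith
  have hq2 : (2 : ℝ) ≤ Nat.card k := by
    exact_mod_cast Finite.one_lt_card (α := k)
  have hqpos : (0 : ℝ) < Nat.card k := by linarith
  set q : ℝ := (Nat.card k : ℝ) with hq
  set M : ℝ := y ^ (2 * g) with hM
  have hM0 : 0 ≤ M := by positivity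
  set Av : k[X] → ℝ := fun D => av O K f θ nrs (fun d => y ^ d) (prD D) with hAv
  have hAv0 : ∀ D, 0 ≤ Av D := fun D => av_nonneg nrs hy0.le (prD D)
  have hw1 : ∀ Q : k[X], Irreducible Q → ¬ Q ∣ (fun _ : k[X] => (1 : k[X])) Q :=
    fun Q hQ h => hQ.not_isUnit (isUnit_of_dvd_one h)
  have hw2 : ∀ Q : k[X], Irreducible Q → ¬ Q ∣ nrs Q := fun Q hQ => nrs_ndvd hg hQ
  have hS : ∀ (N : ℕ) (D : k[X]), D ∈ sq (dsc g f) N →
      ∀ P ∈ prD D, P.Monic ∧ Irreducible P ∧ ¬ P ∣ dsc g f := by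
    intro N D hD P hP
    rw [mem_sq] at hD
    have hP' := (mem_prD hD.1.ne_zero).1 hP
    exact ⟨hP'.1, hP'.2.1, fun hd => hP'.2.1.not_isUnit (hD.2.2.2.isUnit_of_dvd' hP'.2.2 hd)⟩
  have hsplit : ∀ (N m : ℕ) (D : k[X]), D ∈ sq (dsc g f) N →
      (m : ℝ) * ∑ Q ∈ pr (dsc g f) D m, Av (D * Q) =
        (1 / 2 : ℝ) ^ ((prD D).card + 1) * ∑ T ∈ (prD D).powerset,
          ((m : ℝ) * ∑ Q ∈ pr (dsc g f) D m,
            y ^ ld (SelG O K f θ (insert Q (prD D)) (Function.update (uT nrs T) Q 1)) +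
          (m : ℝ) * ∑ Q ∈ pr (dsc g f) D m,
            y ^ ld (SelG O K f θ (insert Q (prD D)) (Function.update (uT nrs T) Q (nrs Q)))) := by
    intro N m D hD
    have hD' := mem_sq.1 hD
    have e1 : ∀ Q ∈ pr (dsc g f) D m, Av (D * Q) = (1 / 2 : ℝ) ^ ((prD D).card + 1) *
        ∑ T ∈ (prD D).powerset,
          (y ^ ld (SelG O K f θ (insert Q (prD D)) (Function.update (uT nrs T) Q 1)) +
          y ^ ld (SelG O K f θ (insert Q (prD D)) (Function.update (uT nrs T) Q (nrs Q)))) := by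
      intro Q hQ
      have hQ' := (mem_pr hD'.1.ne_zero).1 hQ
      have hQD : Q ∉ prD D := fun h => hQ'.2.2.2.1 ((mem_prD hD'.1.ne_zero).1 h).2.2
      simp only [hAv]
      rw [prD_mul hD'.1 hQ'.1 hQ'.2.1, av_insert nrs _ hQD, ← Finset.sum_div, pow_succ]
      ring
    rw [Finset.sum_congr rfl e1, ← Finset.mul_sum, Finset.sum_comm,
      mul_left_comm, Finset.mul_sum]
    congr 1
    refine Finset.sum_congr rfl fun T _ => ?_
    rw [Finset.sum_add_distrib, mul_add]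
  have hcardT : ∀ D : k[X], (1 / 2 : ℝ) ^ ((prD D).card + 1) * ∑ T ∈ (prD D).powerset, (2 : ℝ) = 1 := by
    intro D
    rw [Finset.sum_const, Finset.card_powerset, nsmul_eq_mul, pow_succ]
    push_cast
    have : (1 / 2 : ℝ) ^ (prD D).card * 2 ^ (prD D).card = 1 := by
      rw [← mul_pow]
      norm_num
    linear_combination this
  have hb1 : ∀ (N m : ℕ) (D : k[X]), 1 ≤ m → D ∈ sq (dsc g f) N →
      (m : ℝ) * ∑ Q ∈ pr (dsc g f) D m, Av (D * Q) ≤
        (ρ * Av D + A) * q ^ m + C₀ * (1 + m + N) * √(q ^ m) * Av D := by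
    intro N m D hm hD
    rw [hsplit N m D hD]
    have hdg : (dg (prD D) : ℝ) = N := by
      rw [mem_sq] at hD
      rw [dg_prD hD.1 hD.2.2.1, hD.2.1]
    have hT : ∀ T ∈ (prD D).powerset, ((m : ℝ) * ∑ Q ∈ pr (dsc g f) D m,
            y ^ ld (SelG O K f θ (insert Q (prD D)) (Function.update (uT nrs T) Q 1)) +
          (m : ℝ) * ∑ Q ∈ pr (dsc g f) D m,
            y ^ ld (SelG O K f θ (insert Q (prD D)) (Function.update (uT nrs T) Q (nrs Q)))) ≤
        2 * ((ρ * y ^ ld (SelG O K f θ (prD D) (uT nrs T)) + A) * q ^ m +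
          C₀ * (1 + m + N) * √(q ^ m) * y ^ ld (SelG O K f θ (prD D) (uT nrs T))) := by
      intro T _
      have e1 := hC₀ (prD D) (uT nrs T) (goodT_uT hg (hS N D hD) T) (fun _ => 1) hw1 m hm
      have e2 := hC₀ (prD D) (uT nrs T) (goodT_uT hg (hS N D hD) T) nrs hw2 m hm
      rw [hdg] at e1 e2
      unfold pr
      linarith
    refine (mul_le_mul_of_nonneg_left (Finset.sum_le_sum hT) (by positivity)).trans (le_of_eq ?_)
    have e3 := hcardT D
    simp only [hAv]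
    unfold av
    rw [← Finset.mul_sum, Finset.sum_add_distrib, ← Finset.sum_mul, Finset.sum_add_distrib,
      ← Finset.mul_sum, ← Finset.mul_sum]
    rw [Finset.sum_const, nsmul_eq_mul] at e3 ⊢
    rw [pow_succ] at e3 ⊢
    linear_combination (A * q ^ m) * e3
  have hb2 : ∀ (N m : ℕ) (D : k[X]), 1 ≤ m → D ∈ sq (dsc g f) N →
      (m : ℝ) * ∑ Q ∈ pr (dsc g f) D m, Av (D * Q) ≤ M * Av D * q ^ m := by
    intro N m D hm hD
    rw [hsplit N m D hD]
    have hD' := mem_sq.1 hD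
    have key : ∀ T : Finset k[X], ∀ w : k[X] → k[X], (∀ Q : k[X], Irreducible Q → ¬ Q ∣ w Q) →
        (m : ℝ) * ∑ Q ∈ pr (dsc g f) D m,
          y ^ ld (SelG O K f θ (insert Q (prD D)) (Function.update (uT nrs T) Q (w Q))) ≤
        M * y ^ ld (SelG O K f θ (prD D) (uT nrs T)) * q ^ m := by
      intro T w hw
      have hgood := goodT_uT hg (hS N D hD) T
      have hQ : ∀ Q ∈ pr (dsc g f) D m,
          y ^ ld (SelG O K f θ (insert Q (prD D)) (Function.update (uT nrs T) Q (w Q))) ≤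
            M * y ^ ld (SelG O K f θ (prD D) (uT nrs T)) := by
        intro Q hQ
        have hQ' := (mem_pr hD'.1.ne_zero).1 hQ
        have hQD : Q ∉ prD D := fun h => hQ'.2.2.2.1 ((mem_prD hD'.1.ne_zero).1 h).2.2
        have h7 := hT (prD D) (uT nrs T) hgood Q hQ'.1 hQ'.2.1 hQD hQ'.2.2.2.2 (w Q)
          (hw Q hQ'.2.1)
        rw [hM, ← pow_add, add_comm]
        exact pow_le_pow_right₀ hy.le h7
      have h10 := Finset.sum_le_sum hQ
      rw [Finset.sum_const, nsmul_eq_mul] at h10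
      have h11 := irr_le (k := k) (show 0 < m by omega)
      have h12 : (m : ℝ) * (pr (dsc g f) D m).card ≤ q ^ m := by
        refine le_trans ?_ h11
        refine mul_le_mul_of_nonneg_left ?_ (Nat.cast_nonneg m)
        exact_mod_cast Finset.card_filter_le _ _
      calc _ ≤ (m : ℝ) * ((pr (dsc g f) D m).card * (M * y ^ ld (SelG O K f θ (prD D) (uT nrs T)))) :=
            mul_le_mul_of_nonneg_left h10 (Nat.cast_nonneg m)
        _ = ((m : ℝ) * (pr (dsc g f) D m).card) * (M * y ^ ld (SelG O K f θ (prD D) (uT nrs T))) := by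
            ring
        _ ≤ q ^ m * (M * y ^ ld (SelG O K f θ (prD D) (uT nrs T))) :=
            mul_le_mul_of_nonneg_right h12 (by positivity)
        _ = _ := by ring
    have hT : ∀ T ∈ (prD D).powerset, ((m : ℝ) * ∑ Q ∈ pr (dsc g f) D m,
            y ^ ld (SelG O K f θ (insert Q (prD D)) (Function.update (uT nrs T) Q 1)) +
          (m : ℝ) * ∑ Q ∈ pr (dsc g f) D m,
            y ^ ld (SelG O K f θ (insert Q (prD D)) (Function.update (uT nrs T) Q (nrs Q)))) ≤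
        2 * M * q ^ m * y ^ ld (SelG O K f θ (prD D) (uT nrs T)) := by
      intro T _
      have e1 := key T (fun _ => 1) hw1
      have e2 := key T nrs hw2
      linarith
    refine (mul_le_mul_of_nonneg_left (Finset.sum_le_sum hT) (by positivity)).trans (le_of_eq ?_)
    simp only [hAv]
    unfold av
    rw [← Finset.mul_sum, pow_succ]
    ring
  -- the recursion
  set τ : ℕ → ℝ := fun N => (∑ D ∈ sq (dsc g f) N, Av D) / q ^ N with hτ
  have hτ0 : ∀ N, 0 ≤ τ N := fun N => div_nonneg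
    (Finset.sum_nonneg fun D _ => hAv0 D) (by positivity)
  have hren := renewal τ hτ0 C₀ q hq2 ρ A M hρ0 hρ1 hA0 hM0
    (fun N m => (∑ D ∈ sq (dsc g f) (N - m), (m : ℝ) * ∑ Q ∈ pr (dsc g f) D m,
      Av (D * Q)) / q ^ N)
  suffices hren' : ∃ B : ℝ, ∀ N, τ N ≤ B by
    obtain ⟨B, hB⟩ := hren'
    refine ⟨B, fun N => ?_⟩
    have := hB N
    simp only [hτ] at this
    rwa [div_le_iff₀ (by positivity)] at this
  apply hren
  · intro N
    rw [← Finset.sum_div, ← count_id]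
    simp only [hτ]
    rw [mul_div_assoc]
  · intro N m hm hmN
    have hqN : q ^ N = q ^ (N - m) * q ^ m := by rw [← pow_add, Nat.sub_add_cancel hmN]
    have hqm : 0 < q ^ m := by positivity
    have hqNm : 0 < q ^ (N - m) := by positivity
    have hsq : √(q ^ m) * √(q ^ m) = q ^ m := Real.mul_self_sqrt hqm.le
    have hsqpos : 0 < √(q ^ m) := Real.sqrt_pos.2 hqm
    have hNm : (m : ℝ) + ((N - m : ℕ) : ℝ) = N := by
      rw [Nat.cast_sub hmN]
      ring
    have e1 : ∑ D ∈ sq (dsc g f) (N - m), (m : ℝ) * ∑ Q ∈ pr (dsc g f) D m, Av (D * Q) ≤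
        ∑ D ∈ sq (dsc g f) (N - m), ((ρ * q ^ m + C₀ * (1 + N) * √(q ^ m)) *
          Av D + A * q ^ m) := by
      refine Finset.sum_le_sum fun D hD => (hb1 (N - m) m D hm hD).trans (le_of_eq ?_)
      have : (1 : ℝ) + m + ((N - m : ℕ) : ℝ) = 1 + N := by linarith
      rw [this]
      ring
    have eR : ∑ D ∈ sq (dsc g f) (N - m), ((ρ * q ^ m + C₀ * (1 + N) * √(q ^ m)) *
          Av D + A * q ^ m) = (ρ * q ^ m + C₀ * (1 + N) * √(q ^ m)) *
          ∑ D ∈ sq (dsc g f) (N - m), Av D +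
          ((sq (dsc g f) (N - m)).card : ℝ) * (A * q ^ m) := by
      rw [Finset.sum_add_distrib, ← Finset.mul_sum, Finset.sum_const, nsmul_eq_mul]
    rw [eR] at e1
    have e2 : ((sq (dsc g f) (N - m)).card : ℝ) ≤ q ^ (N - m) := by
      have := card_sq (dsc g f) (N - m)
      rw [hq]
      exact_mod_cast this
    have e3 : (∑ D ∈ sq (dsc g f) (N - m), Av D) = τ (N - m) * q ^ (N - m) := by
      simp only [hτ]
      rw [div_mul_cancel₀ _ hqNm.ne']
    rw [e3] at e1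
    rw [div_le_iff₀ (by positivity), hqN]
    refine e1.trans ?_
    have e4 : ((sq (dsc g f) (N - m)).card : ℝ) * (A * q ^ m) ≤ q ^ (N - m) * (A * q ^ m) :=
      mul_le_mul_of_nonneg_right e2 (by positivity)
    have e5 : ∀ s Q t x c : ℝ, 0 < s → s * s = Q → c / s * t * (x * Q) = c * s * (t * x) := by
      intro s Q t x c hs hQ
      rw [← hQ]
      field_simp
    have e6 := e5 (√(q ^ m)) (q ^ m) (τ (N - m)) (q ^ (N - m)) (C₀ * (1 + (N : ℝ))) hsqpos hsq
    linarith [e4, e6]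
  · intro N m hm hmN
    have hqN : q ^ N = q ^ (N - m) * q ^ m := by rw [← pow_add, Nat.sub_add_cancel hmN]
    have hqm : 0 < q ^ m := by positivity
    have hqNm : 0 < q ^ (N - m) := by positivity
    have e1 : ∑ D ∈ sq (dsc g f) (N - m), (m : ℝ) * ∑ Q ∈ pr (dsc g f) D m, Av (D * Q) ≤
        ∑ D ∈ sq (dsc g f) (N - m), M * Av D * q ^ m :=
      Finset.sum_le_sum fun D hD => hb2 (N - m) m D hm hD
    have eR : ∑ D ∈ sq (dsc g f) (N - m), M * Av D * q ^ m =
        M * (∑ D ∈ sq (dsc g f) (N - m), Av D) * q ^ m := by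
      rw [← Finset.sum_mul, ← Finset.mul_sum]
    rw [eR] at e1
    have e3 : (∑ D ∈ sq (dsc g f) (N - m), Av D) = τ (N - m) * q ^ (N - m) := by
      simp only [hτ]
      rw [div_mul_cancel₀ _ hqNm.ne']
    rw [e3] at e1
    rw [div_le_iff₀ (by positivity), hqN]
    refine e1.trans (le_of_eq (by ring))

end main

end Run7.h704.PL.AVM

namespace Run7.h704.PL

open Pool.Agent.N352.PJ (IsGen dsc)
open Run7.h875.TS (NRs prD)
open Run7.h784.TG Run7.h286.PL

theorem T_AVM (hONE2 : P_ONE2) (hTRB : P_TRB) (hLAST2 : P_LAST2) (hSTEP : P_STEP)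
    (hREP : P_REP) (hGRP : P_GRP) : P_AVM := by
  intro k K L O _ _ _ _ _ _ _ _ _ _ _ _ _ _ _ _ g N r f θ hF hfull h nrs hg y hy
  obtain ⟨B, hB⟩ := AVM.avm_main (O := O) hONE2 hTRB hLAST2 hSTEP hREP hGRP hF hfull h nrs hg
    (y := y + 1) (by linarith)
  refine ⟨B, fun N' => le_trans ?_ (hB N')⟩
  rw [sqF_eq]
  exact Finset.sum_le_sum fun D _ => AVM.av_mono nrs (by linarith) (by linarith) (prD D)

end Run7.h704.PL
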