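import Pool.Agent.Run7.h286.PL.StmA
import Pool.Agent.Run7.h550.TS.AVG

/-! Pieces REM and DIV of project PRL. -/

set_option autoImplicit false
set_option linter.all false

open Polynomial IsDedekindDomain
open scoped Classical

namespace Run7.h704.PL

open Run7.h875.TS (chi cd IsPC GSq irrD dg NRs uT sqf prD sqL sz Tr)
open Run7.h286.PL
open Run7.h550.TS (mem_prD eq_of_dvd prD_mul dg_prD sqf_fin sq mem_sq card_sq mem_irrD)

theorem sqF_eq {k : Type} [Field k] [Finite k] (B : k[X]) (N : ℕ) : sqF B N = sq B N := by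
  unfold sqF Run7.h550.TS.sq
  rw [dif_pos (sqf_fin B N)]

theorem mem_sqF {k : Type} [Field k] [Finite k] {B D : k[X]} {N : ℕ} :
    D ∈ sqF B N ↔ D.Monic ∧ D.natDegree = N ∧ Squarefree D ∧ IsCoprime D B := by
  rw [sqF_eq, mem_sq]

/-- (mul) -/
theorem sqF_mul {k : Type} [Field k] [Finite k] {B D Q : k[X]} {N m : ℕ} (hD : D ∈ sqF B N)
    (g1 : Q.Monic) (g2 : Irreducible Q) (g3 : Q.natDegree = m) (g4 : ¬ Q ∣ D) (g5 : ¬ Q ∣ B) :
    D * Q ∈ sqF B (N + m) := by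
  rw [mem_sqF] at hD
  obtain ⟨h1, h2, h3, h4⟩ := hD
  rw [mem_sqF]
  refine ⟨h1.mul g1, by rw [h1.natDegree_mul g1, h2, g3], ?_, ?_⟩
  · rw [squarefree_mul_iff]
    refine ⟨?_, h3, g2.squarefree⟩
    exact ((g2.coprime_iff_not_dvd.2 g4).symm).isRelPrime
  · exact h4.mul_left (g2.coprime_iff_not_dvd.2 g5)

/-- (div) -/
theorem sqF_div {k : Type} [Field k] [Finite k] {B D Q : k[X]} {N : ℕ} (hD : D ∈ sqF B N)
    (hQ : Q ∈ prD D) :
    1 ≤ Q.natDegree ∧ Q.natDegree ≤ N ∧ D / Q ∈ sqF B (N - Q.natDegree) ∧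
      (Q.Monic ∧ Irreducible Q ∧ ¬ Q ∣ D / Q ∧ ¬ Q ∣ B) ∧ D / Q * Q = D := by
  rw [mem_sqF] at hD
  obtain ⟨h1, h2, h3, h4⟩ := hD
  rw [mem_prD h1.ne_zero] at hQ
  obtain ⟨g1, g2, E, rfl⟩ := hQ
  have hE : E.Monic := g1.of_mul_monic_left h1
  have e : Q * E / Q = E := mul_div_cancel_left₀ E g2.ne_zero
  have hdeg : N = Q.natDegree + E.natDegree := by rw [← h2, g1.natDegree_mul hE]
  rw [squarefree_mul_iff] at h3
  have hnd : ¬ Q ∣ E := fun h => g2.not_isUnit (h3.1 dvd_rfl h)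
  have hnB : ¬ Q ∣ B := fun h => g2.not_isUnit
    ((IsCoprime.of_mul_left_left h4).isUnit_of_dvd' dvd_rfl h)
  refine ⟨g2.natDegree_pos, by omega, ?_, ?_, ?_⟩
  · rw [e, mem_sqF]
    exact ⟨hE, by omega, h3.2.2, IsCoprime.of_mul_left_right h4⟩
  · rw [e]
    exact ⟨g1, g2, hnd, hnB⟩
  · rw [e, mul_comm]

theorem T_REM : P_REM := by
  intro k _ _ B _ _ N τ F
  rw [Finset.sum_sigma']
  have h2 : ∑ m ∈ Finset.Icc 1 N, ∑ D ∈ sqF B (N - m),
      ∑ Q ∈ (irrD k m).filter (fun Q => τ Q ∧ ¬ Q ∣ D ∧ ¬ Q ∣ B), F (D * Q) Q =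
      ∑ x ∈ (Finset.Icc 1 N).sigma fun m => sqF B (N - m),
        ∑ Q ∈ (irrD k x.1).filter (fun Q => τ Q ∧ ¬ Q ∣ x.2 ∧ ¬ Q ∣ B), F (x.2 * Q) Q := by
    rw [Finset.sum_sigma]
  rw [h2, Finset.sum_sigma']
  refine Finset.sum_bij'
    (i := fun x _ => (⟨⟨x.2.natDegree, x.1 / x.2⟩, x.2⟩ : (_ : (_ : ℕ) × k[X]) × k[X]))
    (j := fun y _ => (⟨y.1.2 * y.2, y.2⟩ : (_ : k[X]) × k[X])) ?_ ?_ ?_ ?_ ?_
  · rintro ⟨D, Q⟩ h
    rw [Finset.mem_sigma, Finset.mem_filter] at h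
    obtain ⟨a1, a2, a3, a4, a5⟩ := sqF_div h.1 h.2.1
    simp only [Finset.mem_sigma, Finset.mem_Icc, Finset.mem_filter]
    exact ⟨⟨⟨a1, a2⟩, a3⟩, mem_irrD.2 ⟨a4.1, a4.2.1, rfl⟩, h.2.2, a4.2.2.1, a4.2.2.2⟩
  · rintro ⟨⟨m, D⟩, Q⟩ h
    simp only [Finset.mem_sigma, Finset.mem_Icc, Finset.mem_filter, mem_irrD] at h
    obtain ⟨⟨h1, h2⟩, h3, h4, h5, h6⟩ := h
    have h7 := sqF_mul h2 h3.1 h3.2.1 h3.2.2 h5 h6
    rw [Nat.sub_add_cancel h1.2] at h7
    rw [Finset.mem_sigma, Finset.mem_filter]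
    have hD := mem_sqF.1 h2
    exact ⟨h7, (mem_prD (hD.1.mul h3.1).ne_zero).2 ⟨h3.1, h3.2.1, dvd_mul_left _ _⟩, h4⟩
  · rintro ⟨D, Q⟩ h
    rw [Finset.mem_sigma, Finset.mem_filter] at h
    obtain ⟨a1, a2, a3, a4, a5⟩ := sqF_div h.1 h.2.1
    simp only
    rw [a5]
  · rintro ⟨⟨m, D⟩, Q⟩ h
    simp only [Finset.mem_sigma, Finset.mem_Icc, Finset.mem_filter, mem_irrD] at h
    obtain ⟨⟨h1, h2⟩, h3, h4, h5, h6⟩ := h
    simp only
    rw [mul_div_cancel_right₀ _ h3.2.1.ne_zero, h3.2.2]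
  · rintro ⟨D, Q⟩ h
    rw [Finset.mem_sigma, Finset.mem_filter] at h
    obtain ⟨a1, a2, a3, a4, a5⟩ := sqF_div h.1 h.2.1
    simp only
    rw [a5]

/-- the product of the elements of a set of primes -/
theorem prod_pr {k : Type} [Field k] {T : Finset k[X]}
    (hT : ∀ Q ∈ T, Q.Monic ∧ Irreducible Q) :
    (∏ Q ∈ T, Q).Monic ∧ Squarefree (∏ Q ∈ T, Q) ∧ prD (∏ Q ∈ T, Q) = T ∧
      (∏ Q ∈ T, Q).natDegree = ∑ Q ∈ T, Q.natDegree := by
  have h1 : (∏ Q ∈ T, Q).Monic := Polynomial.monic_prod_of_monic _ _ fun Q hQ => (hT Q hQ).1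
  refine ⟨h1, ?_, ?_, Polynomial.natDegree_prod_of_monic _ _ fun Q hQ => (hT Q hQ).1⟩
  · refine Finset.squarefree_prod_of_pairwise_isCoprime ?_ fun Q hQ => (hT Q hQ).2.squarefree
    intro P hP Q hQ hPQ
    have hP' := hT P hP
    have hQ' := hT Q hQ
    exact (hP'.2.coprime_iff_not_dvd.2 fun h =>
      hPQ (eq_of_dvd hP'.1 hP'.2 hQ'.1 hQ'.2 h)).isRelPrime
  · ext P
    rw [mem_prD h1.ne_zero]
    constructor
    · rintro ⟨a1, a2, a3⟩
      obtain ⟨Q, hQ, hd⟩ := (Prime.dvd_finset_prod_iff a2.prime _).1 a3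
      have := hT Q hQ
      rwa [eq_of_dvd a1 a2 this.1 this.2 hd]
    · intro hP
      exact ⟨(hT P hP).1, (hT P hP).2, Finset.dvd_prod_of_mem _ hP⟩

theorem prod_prD {k : Type} [Field k] {D : k[X]} (h1 : D.Monic) (h2 : Squarefree D) :
    ∏ Q ∈ prD D, Q = D := by
  have h3 : (UniqueFactorizationMonoid.normalizedFactors D).Nodup :=
    (UniqueFactorizationMonoid.squarefree_iff_nodup_normalizedFactors h1.ne_zero).1 h2
  have h4 : (UniqueFactorizationMonoid.normalizedFactors D).prod = D := by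
    rw [UniqueFactorizationMonoid.prod_normalizedFactors_eq h1.ne_zero, h1.normalize_eq_self]
  have h5 := Finset.prod_val (prD D)
  unfold prD at h5 ⊢
  rw [Multiset.toFinset_val, h3.dedup, h4] at h5
  exact h5.symm

theorem T_DIV : P_DIV := by
  intro k _ _ B _ _ N
  refine ⟨fun D => ?_, ?_, ?_⟩
  · rw [mem_sqF]; rfl
  · have hq : (∑ D ∈ sqF B N, (2 : ℝ) ^ (prD D).card) =
        (((sqF B N).sigma fun D => (prD D).powerset).card : ℝ) := by
      rw [Finset.card_sigma]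
      push_cast
      refine Finset.sum_congr rfl fun D _ => ?_
      rw [Finset.card_powerset]
      push_cast
      rfl
    rw [hq]
    have hinj : ((sqF B N).sigma fun D => (prD D).powerset).card ≤
        ((Finset.range (N + 1)).sigma fun j => sq (1 : k[X]) j ×ˢ sq (1 : k[X]) (N - j)).card := by
      refine Finset.card_le_card_of_injOn
        (fun x => (⟨(∏ Q ∈ x.2, Q).natDegree, (∏ Q ∈ x.2, Q, ∏ Q ∈ prD x.1 \ x.2, Q)⟩ :
          (_ : ℕ) × (k[X] × k[X]))) ?_ ?_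
      · rintro ⟨D, T⟩ h
        rw [Finset.mem_coe, Finset.mem_sigma, Finset.mem_powerset] at h
        obtain ⟨h1, h2⟩ := h
        have hD := mem_sqF.1 h1
        simp only at h2
        have hT : ∀ Q ∈ T, Q.Monic ∧ Irreducible Q := fun Q hQ =>
          ⟨((mem_prD hD.1.ne_zero).1 (h2 hQ)).1, ((mem_prD hD.1.ne_zero).1 (h2 hQ)).2.1⟩
        have hT' : ∀ Q ∈ prD D \ T, Q.Monic ∧ Irreducible Q := fun Q hQ =>
          ⟨((mem_prD hD.1.ne_zero).1 (Finset.mem_sdiff.1 hQ).1).1,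
            ((mem_prD hD.1.ne_zero).1 (Finset.mem_sdiff.1 hQ).1).2.1⟩
        obtain ⟨a1, a2, a3, a4⟩ := prod_pr hT
        obtain ⟨b1, b2, b3, b4⟩ := prod_pr hT'
        have hsum : (∏ Q ∈ T, Q).natDegree + (∏ Q ∈ prD D \ T, Q).natDegree = N := by
          rw [← hD.2.1, ← prod_prD hD.1 hD.2.2.1, prod_prD hD.1 hD.2.2.1, ← a1.natDegree_mul b1,
            mul_comm, Finset.prod_sdiff h2, prod_prD hD.1 hD.2.2.1]
        simp only [Finset.mem_coe, Finset.mem_sigma, Finset.mem_range, Finset.mem_product]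
        refine ⟨by omega, mem_sq.2 ⟨a1, rfl, a2, isCoprime_one_right⟩,
          mem_sq.2 ⟨b1, by omega, b2, isCoprime_one_right⟩⟩
      · rintro ⟨D, T⟩ h ⟨D', T'⟩ h' heq
        rw [Finset.mem_coe, Finset.mem_sigma, Finset.mem_powerset] at h h'
        obtain ⟨h1, h2⟩ := h
        obtain ⟨h1', h2'⟩ := h'
        have hD : D.Monic ∧ D.natDegree = N ∧ Squarefree D ∧ IsCoprime D B := mem_sqF.1 h1
        have hD' : D'.Monic ∧ D'.natDegree = N ∧ Squarefree D' ∧ IsCoprime D' B := mem_sqF.1 h1'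
        simp only at h2 h2'
        have hT : ∀ Q ∈ T, Q.Monic ∧ Irreducible Q := fun Q hQ =>
          ⟨((mem_prD hD.1.ne_zero).1 (h2 hQ)).1, ((mem_prD hD.1.ne_zero).1 (h2 hQ)).2.1⟩
        have hT' : ∀ Q ∈ T', Q.Monic ∧ Irreducible Q := fun Q hQ =>
          ⟨((mem_prD hD'.1.ne_zero).1 (h2' hQ)).1, ((mem_prD hD'.1.ne_zero).1 (h2' hQ)).2.1⟩
        simp only [Sigma.mk.injEq] at heq
        obtain ⟨e1, e2⟩ := heq
        have e3 := eq_of_heq e2
        rw [Prod.mk.injEq] at e3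
        have e4 : T = T' := by
          rw [← (prod_pr hT).2.2.1, ← (prod_pr hT').2.2.1, e3.1]
        have e5 : D = D' := by
          rw [← prod_prD hD.1 hD.2.2.1, ← prod_prD hD'.1 hD'.2.2.1, ← Finset.prod_sdiff h2,
            ← Finset.prod_sdiff h2', e3.1, e3.2]
        rw [e4, e5]
    have hcard : ((Finset.range (N + 1)).sigma fun j => sq (1 : k[X]) j ×ˢ
        sq (1 : k[X]) (N - j)).card ≤ (N + 1) * Nat.card k ^ N := by
      rw [Finset.card_sigma]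
      calc ∑ j ∈ Finset.range (N + 1), (sq (1 : k[X]) j ×ˢ sq (1 : k[X]) (N - j)).card
          ≤ ∑ j ∈ Finset.range (N + 1), Nat.card k ^ N := by
            refine Finset.sum_le_sum fun j hj => ?_
            rw [Finset.card_product]
            rw [Finset.mem_range] at hj
            calc (sq (1 : k[X]) j).card * (sq (1 : k[X]) (N - j)).card
                ≤ Nat.card k ^ j * Nat.card k ^ (N - j) :=
                  Nat.mul_le_mul (card_sq _ _) (card_sq _ _)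
              _ = Nat.card k ^ N := by rw [← pow_add]; congr 1; omega
        _ = (N + 1) * Nat.card k ^ N := by simp
    exact_mod_cast hinj.trans hcard
  · rw [sqF_eq]
    exact_mod_cast card_sq B N

end Run7.h704.PL
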